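import Pool.Agent.P.MP_8a730c_lc.Reduce

/-! Approximating the crossing number of graphs of maximum degree at most four within any constant
factor is hard under the small-set expansion hypothesis. -/

namespace Pool.Agent.Results.MP_8a730c_lc.SSEHard

open Pool.Agent.P.MP_8a730c_lc

theorem result :
    (∀ c : ℝ, ∃ η : ℚ, 0 < η ∧ η < 1 / 2 ∧ ∀ δ : ℚ, 0 < δ → δ ≤ 1 / 2 →
      Reduces (SSEyes η δ) (SSEno η δ) (CrYes 4) (CrNo 4 c)) ∧
    (SSEH → ∀ c : ℝ, NPHard (CrYes 4) (CrNo 4 c)) := by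
  refine ⟨sse_reduces, fun H c => ?_⟩
  obtain ⟨η, h0, h1, h⟩ := sse_reduces c
  obtain ⟨δ, g0, g1, g⟩ := H η h0 h1
  exact g.trans (h δ g0 g1)

end Pool.Agent.Results.MP_8a730c_lc.SSEHard
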