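import Pool.Agent.P.MP_8a730c_lc.UGRed

/-! Approximating the crossing number within any constant factor is hard under the unique games
conjecture. -/

namespace Pool.Agent.Results.MP_8a730c_lc.UGHard

open Pool.Agent.P.MP_8a730c_lc

theorem result :
    (∀ c : ℝ, ∃ η : ℚ, 0 < η ∧ η < 1 / 2 ∧ ∀ q : ℕ, 0 < q →
      Reduces (UGyes q η) (UGno q η) CrLe (CrGt c)) ∧
    (UGC → ∀ c : ℝ, NPHard CrLe (CrGt c)) := by
  refine ⟨ug_reduces, fun H c => ?_⟩
  obtain ⟨η, h0, h1, h⟩ := ug_reduces c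
  obtain ⟨q, g0, g⟩ := H η η h0 h0 (by linarith)
  exact g.trans (h q g0)

end Pool.Agent.Results.MP_8a730c_lc.UGHard
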